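import Pool.Agent.U140.RG.Za7
import Pool.Agent.U140.RG.Asm

/-!
# MP_d15a9b_pr: random regular graphs are reconstructable from their 2-neighbourhoods

**Theorem (full answer to Q1, positive).** For every `ε > 0` and every sequence `d_n` with
`n ^ (1/4 + ε) ≤ d_n ≤ n / 2` for all large `n` with `n d_n` even, the uniformly random
`d_n`-regular graph on `n` vertices is reconstructable from its 2-neighbourhoods with probability
tending to `1` along the `n` with `n d_n` even.

## Proof

Let `L` be a small power of `n`.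

*Dense range* `d ^ 2 > n L`. The graph is even reconstructable from its 1-neighbourhoods (a
starting theorem of the library, used here), and 2-neighbourhoods determine 1-neighbourhoods.

*Middle range* `n ≤ 8 L ^ 24 d ^ 3`, `d ^ 2 ≤ n L`. The 2-neighbourhoods of both ends of an edge `ab`
show, for each neighbour `x` of `a`, the number of neighbours of `x` outside the neighbourhood of `a` and `b` which have
an odd number of common neighbours with `b`; the numbers of `x` with each value of this statistic form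
a fingerprint. Switchings show that there are many `x` which can be re-split with a partner, and
inside a class of graphs given by such re-splittings the fingerprint is a function of independent
uniform choices. So fingerprints of different edges differ, and all local isomorphisms are the
identity.

*Sparse range* `8 L ^ 24 d ^ 3 < n`. Every dart is in about `d ^ 4 / n` cycles of length 5 and every vertex pair is
joined by boundedly many paths of length 3. A local isomorphism which is not the identity maps the 5-cycles of the other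
graph to prescribed short paths of `G`; exposing a random set `Q` of pairs first, few items in `Q` would
determine many 3-paths with new edges. The probability of further edges is bounded by switchings
(`Pool.Agent.U140.RG.sb`), the number of 5-cycles by a chain of switchings (`Pool.Agent.U140.RG.rlo`).
-/

namespace Pool.Agent.Results.MP_d15a9b_pr.RegularTwoBalls

open Filter Topology

/-- every vertex of `G` has exactly `d` neighbours -/
def IsReg {n : ℕ} (d : ℕ) (G : SimpleGraph (Fin n)) : Prop := ∀ v, (G.neighborSet v).ncard = d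

/-- the vertices at distance at most `2` from `v` -/
def ball2 {n : ℕ} (G : SimpleGraph (Fin n)) (v : Fin n) : Set (Fin n) := {w | G.edist v w ≤ 2}

/-- the subgraphs induced on the balls of radius `2` around `v` and `w` are isomorphic by an
isomorphism which takes `v` to `w` -/
def BallIso2 {n : ℕ} (G : SimpleGraph (Fin n)) (v : Fin n) (H : SimpleGraph (Fin n)) (w : Fin n) :
    Prop :=
  ∃ e : G.induce (ball2 G v) ≃g H.induce (ball2 H w),
    ∀ x : ball2 G v, (x : Fin n) = v → ((e x : ball2 H w) : Fin n) = w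

/-- `G` is reconstructable from its `2`-neighbourhoods: every graph `H` on as many vertices with the
same multiset of rooted `2`-neighbourhoods up to isomorphism (that is, there is a bijection `σ` of
the vertices such that the 2-neighbourhoods of `v` in `G` and of `σ v` in `H` are isomorphic) is
isomorphic to `G` -/
def Recon2 {n : ℕ} (G : SimpleGraph (Fin n)) : Prop :=
  ∀ H : SimpleGraph (Fin n), (∃ σ : Fin n ≃ Fin n, ∀ v, BallIso2 G v H (σ v)) → Nonempty (G ≃g H)

lemma recon2_of_rec {n : ℕ} {G : SimpleGraph (Fin n)} (h : Pool.Agent.U140.SG.Rec G) :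
    Recon2 G := by
  classical
  rintro H ⟨σ, hσ⟩
  refine h H ⟨σ, fun v => ?_⟩
  obtain ⟨e, he⟩ := hσ v
  have hv : v ∈ ball2 G v := by
    unfold ball2
    simp
  set f : Fin n → Fin n := fun x => if hx : x ∈ ball2 G v then ((e ⟨x, hx⟩ : ball2 H (σ v)) : Fin n) else x
    with hf
  have hfx : ∀ (x : Fin n) (hx : x ∈ ball2 G v), f x = ((e ⟨x, hx⟩ : ball2 H (σ v)) : Fin n) := by
    intro x hx
    rw [hf]
    simp only [dif_pos hx]
  refine ⟨f, ?_, ⟨?_, ?_, ?_⟩, ?_⟩
  · rw [hfx v hv]
    exact he ⟨v, hv⟩ rfl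
  · intro x hx
    rw [hfx x hx]
    exact (e ⟨x, hx⟩).2
  · intro x hx y hy hxy
    rw [hfx x hx, hfx y hy] at hxy
    have := e.injective (Subtype.ext hxy)
    exact congrArg Subtype.val this
  · intro y hy
    refine ⟨((e.symm ⟨y, hy⟩ : ball2 G v) : Fin n), (e.symm ⟨y, hy⟩).2, ?_⟩
    rw [hfx _ (e.symm ⟨y, hy⟩).2]
    simp
  · intro a ha b hb
    rw [hfx a ha, hfx b hb]
    have := e.map_rel_iff (a := ⟨a, ha⟩) (b := ⟨b, hb⟩)
    simp only [SimpleGraph.comap_adj, Function.Embedding.subtype_apply] at this
    exact this.symm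

theorem result : ∀ ε : ℝ, 0 < ε → ∀ d : ℕ → ℕ,
    (∀ᶠ n : ℕ in atTop, Even (n * d n) →
      (n : ℝ) ^ ((1 : ℝ) / 4 + ε) ≤ d n ∧ (d n : ℝ) ≤ n / 2) →
    Tendsto (fun n : ℕ => ({G : SimpleGraph (Fin n) | IsReg (d n) G ∧ Recon2 G}.ncard : ℝ) /
        ({G : SimpleGraph (Fin n) | IsReg (d n) G}.ncard : ℝ))
      (atTop ⊓ 𝓟 {n : ℕ | Even (n * d n)}) (𝓝 1) := by
  classical
  intro ε hε d hd
  have hR : ∀ n k : ℕ, {G : SimpleGraph (Fin n) | IsReg k G}.ncard =
      (Pool.Agent.K1H35.SH.reg n k).card := by
    intro n k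
    have := Pool.Agent.K1H35.SH.reg_eq n k
    have h2 : {G : SimpleGraph (Fin n) | IsReg k G} =
        (Pool.Agent.K1H35.SH.reg n k : Set (SimpleGraph (Fin n))) := this
    rw [h2, Set.ncard_coe_finset]
  have hC : ∀ n k : ℕ, {G : SimpleGraph (Fin n) | IsReg k G ∧ Recon2 G}.ncard =
      Pool.Agent.K1H35.SH.cnt n k Recon2 := fun n k => Pool.Agent.K1H35.SH.cnt_eq n k Recon2
  simp only [hR, hC]
  have hup : ∀ n : ℕ, (Pool.Agent.K1H35.SH.cnt n (d n) Recon2 : ℝ) /
      ((Pool.Agent.K1H35.SH.reg n (d n)).card : ℝ) ≤ 1 := by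
    intro n
    apply div_le_one_of_le₀ _ (Nat.cast_nonneg _)
    exact Nat.cast_le.2 (Pool.Agent.U140.RG.cnt_le _)
  rw [Metric.tendsto_nhds]
  intro η hη
  rw [eventually_inf_principal]
  obtain ⟨N, hN⟩ := Pool.Agent.U140.RG.assembly Pool.Agent.U140.RG.zone_A hε
    (show 0 < η / 2 by linarith)
  filter_upwards [hd, eventually_ge_atTop N] with n h1 h2 hev
  obtain ⟨h3, h4⟩ := h1 hev
  have key := hN n (d n) h2 hev h3 h4
  have hpos : 0 < (Pool.Agent.K1H35.SH.reg n (d n)).card := by
    refine Finset.card_pos.2 (Pool.Agent.K1H35.SH.r_EX n (d n) ?_ hev)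
    have : (2 : ℝ) * d n ≤ n := by linarith
    exact_mod_cast this
  have hpos' : (0 : ℝ) < (Pool.Agent.K1H35.SH.reg n (d n)).card := by exact_mod_cast hpos
  have hcompl := Pool.Agent.K1H35.SH.cnt_compl n (d n) Recon2
  have hle : Pool.Agent.K1H35.SH.cnt n (d n) (fun G => ¬ Recon2 G) ≤
      Pool.Agent.K1H35.SH.cnt n (d n) (fun G => ¬ Pool.Agent.U140.SG.Rec G) :=
    Pool.Agent.U140.RG.cnt_mono fun G _ hG hr => hG (recon2_of_rec hr)
  have hle' : (Pool.Agent.K1H35.SH.cnt n (d n) (fun G => ¬ Recon2 G) : ℝ) ≤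
      η / 2 * (Pool.Agent.K1H35.SH.reg n (d n)).card := (Nat.cast_le.2 hle).trans key
  have hcompl' : (Pool.Agent.K1H35.SH.cnt n (d n) Recon2 : ℝ) +
      (Pool.Agent.K1H35.SH.cnt n (d n) (fun G => ¬ Recon2 G) : ℝ) =
      (Pool.Agent.K1H35.SH.reg n (d n)).card := by exact_mod_cast hcompl
  have hlow : 1 - η / 2 ≤ (Pool.Agent.K1H35.SH.cnt n (d n) Recon2 : ℝ) /
      ((Pool.Agent.K1H35.SH.reg n (d n)).card : ℝ) := by
    rw [le_div_iff₀ hpos']
    linarith
  rw [Real.dist_eq, abs_lt]
  constructor
  · linarith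
  · linarith [hup n]

end Pool.Agent.Results.MP_d15a9b_pr.RegularTwoBalls
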